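import Pool.Agent.U409.OA.Stm3

set_option autoImplicit false

/-! Project OA, package IIC: the identity (II) when the first two parameters have the
product `z^2`. -/

namespace Pool.Agent.U606.OA.IIC

open Finset Filter Topology Pool.Agent.U409.OA

theorem Vp_cons {n : ℕ} (x : ℂ) (v : Fin n → ℂ) :
    Vp (Fin.cons x v : Fin (n + 1) → ℂ) = (∏ k, (x - v k) * (x * v k - 1)) * Vp v := by
  unfold Vp
  rw [Fin.prod_univ_succ]
  congr 1
  · rw [Fin.prod_Ioi_zero]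
    rfl
  · refine Finset.prod_congr rfl fun i _ => ?_
    rw [Fin.prod_Ioi_succ]
    rfl

theorem key (z x y u : ℂ) (hz : z ^ 2 = z - 1) (hxy : x * y = z ^ 2) :
    ((z ^ 2 * (x * u) - 1) * (z ^ 2 * (u * y) - 1)) *
        (((x - u) * (x * u - 1)) * ((y - u) * (y * u - 1))) =
      z ^ 2 * ((u ^ 3 - x ^ 3) * (u ^ 3 - y ^ 3)) := by
  have hz0 : z ≠ 0 := by
    rintro rfl
    norm_num at hz
  have h3 : z ^ 3 = -1 := by linear_combination (z + 1) * hz
  have hz2 : x * y ≠ 0 := by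
    rw [hxy]; exact pow_ne_zero _ hz0
  have hx1 : x * (y - u) = z ^ 2 - x * u := by rw [mul_sub, hxy]
  have hy1 : y * (x - u) = z ^ 2 - y * u := by rw [mul_sub, mul_comm y x, hxy]
  have hc : ∀ a : ℂ, (a - 1) * (z ^ 2 * a - 1) * (z ^ 2 - a) = -z ^ 2 * (a ^ 3 - 1) := by
    intro a
    linear_combination (a ^ 2 * (z ^ 2 + z + 1) - a * (z ^ 2 + z + 1)) * hz
  have hxy3 : x ^ 3 * y ^ 3 = 1 := by
    rw [← mul_pow, hxy, ← pow_mul]
    calc z ^ (2 * 3) = (z ^ 3) ^ 2 := by ring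
      _ = 1 := by rw [h3]; norm_num
  refine mul_left_cancel₀ hz2 ?_
  calc x * y * (((z ^ 2 * (x * u) - 1) * (z ^ 2 * (u * y) - 1)) *
        (((x - u) * (x * u - 1)) * ((y - u) * (y * u - 1))))
      = ((x * u - 1) * (z ^ 2 * (x * u) - 1) * (x * (y - u))) *
        ((y * u - 1) * (z ^ 2 * (y * u) - 1) * (y * (x - u))) := by ring
    _ = (-z ^ 2 * ((x * u) ^ 3 - 1)) * (-z ^ 2 * ((y * u) ^ 3 - 1)) := by
        rw [hx1, hy1, hc, hc]
    _ = z ^ 2 * (z ^ 2 * ((u ^ 3 - x ^ 3) * (u ^ 3 - y ^ 3))) := by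
        linear_combination (z ^ 4 * (u ^ 6 - 1)) * hxy3
    _ = x * y * (z ^ 2 * ((u ^ 3 - x ^ 3) * (u ^ 3 - y ^ 3))) := by rw [hxy]

theorem t_IIC (hP : S_PERM) (hR1 : S_R1) (hDR : S_DREC) : S_IIC := by
  intro z hz m x y u hxy h2
  unfold I2 at h2 ⊢
  have hl : List.ofFn (Fin.cons x (Fin.cons y u : Fin (2 * m + 1) → ℂ) : Fin (2 * m + 2) → ℂ) =
      x :: y :: List.ofFn u := by
    rw [List.ofFn_succ, List.ofFn_succ]
    rfl
  have hperm : (x :: y :: List.ofFn u).Perm (x :: (List.ofFn u ++ [y])) := by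
    refine List.Perm.cons x ?_
    exact (List.perm_append_singleton y (List.ofFn u)).symm
  rw [hl, (hP z hz _ _ hperm).1, (hR1 z x y (List.ofFn u) hxy).1]
  have hV : Vp (Fin.cons x (Fin.cons y u : Fin (2 * m + 1) → ℂ) : Fin (2 * m + 2) → ℂ) =
      ((x - y) * (x * y - 1) * ∏ k, (x - u k) * (x * u k - 1)) *
        ((∏ k, (y - u k) * (y * u k - 1)) * Vp u) := by
    rw [Vp_cons, Vp_cons, Fin.prod_univ_succ]
    rfl
  rw [hV, hDR z hz m x y u hxy, List.map_ofFn, List.prod_ofFn]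
  have hk : (∏ k, ((z ^ 2 * (x * u k) - 1) * (z ^ 2 * (u k * y) - 1))) *
      ((∏ k, (x - u k) * (x * u k - 1)) * (∏ k, (y - u k) * (y * u k - 1))) =
      z ^ (4 * m) * ∏ k, ((u k ^ 3 - x ^ 3) * (u k ^ 3 - y ^ 3)) := by
    rw [← Finset.prod_mul_distrib, ← Finset.prod_mul_distrib]
    rw [Finset.prod_congr rfl (fun k _ => key z x y (u k) hz hxy), Finset.prod_mul_distrib,
      Finset.prod_const, Finset.card_univ, Fintype.card_fin, ← pow_mul]
    congr 2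
    ring
  have he : z ^ (2 * (m + 1) * (m + 1 - 1)) = z ^ (4 * m) * z ^ (2 * m * (m - 1)) := by
    rw [← pow_add]
    congr 1
    rcases m with _ | m
    · rfl
    · simp only [Nat.add_sub_cancel]
      ring
  have hcomp : (∏ i, ((fun k => (z ^ 2 * (x * k) - 1) * (z ^ 2 * (k * y) - 1)) ∘ u) i) =
      ∏ k, ((z ^ 2 * (x * u k) - 1) * (z ^ 2 * (u k * y) - 1)) := rfl
  rw [hcomp, he]
  calc (z - 2) * (∏ k, ((z ^ 2 * (x * u k) - 1) * (z ^ 2 * (u k * y) - 1))) *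
        G z (List.ofFn u) *
        ((x - y) * (x * y - 1) * (∏ k, (x - u k) * (x * u k - 1)) *
          ((∏ k, (y - u k) * (y * u k - 1)) * Vp u))
      = (z - 2) * ((x - y) * (x * y - 1)) *
        ((∏ k, ((z ^ 2 * (x * u k) - 1) * (z ^ 2 * (u k * y) - 1))) *
          ((∏ k, (x - u k) * (x * u k - 1)) * (∏ k, (y - u k) * (y * u k - 1)))) *
        (G z (List.ofFn u) * Vp u) := by ring
    _ = _ := by
        rw [hk, h2]
        ring

end Pool.Agent.U606.OA.IIC
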